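import Pool.Agent.Helper82_BCS.FIN2
import Pool.Agent.Helper82_BCS.PWI
import Pool.Agent.Helper6_BCS.GRN
import Pool.Agent.Helper88_BCS.KEY
import Pool.Agent.Helper97_BCS.T2A
import Pool.Agent.Helper77_BCS.COE
import Pool.Agent.Helper51_BCS.TZR
import Pool.Agent.Helper37_BCS.STW
import Pool.Agent.Helper2_BCS.EXI
import Pool.Agent.Helper37_BCS.APX
import Pool.Agent.Helper81_BCS.TGT
import Pool.Agent.Helper13_BCS.T2D
import Pool.Agent.Helper75_BCS.DUI
import Pool.Agent.Helper15_BCS.AVD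
import Pool.Agent.Helper99_BCS.GSM
import Pool.Agent.Helper17_BCS.CNS
import Pool.Agent.Helper46_BCS.HMB
import Pool.Agent.Helper60_BCS.TRJ
import Pool.Agent.Helper49_BCS.BLK
import Pool.Agent.Helper82_BCS.LN3
import Pool.Agent.Helper21_BCS.AVB

/-!
# Q1 for arbitrary families of fibre metrics on `B² × T^m`, in every dimension `n = m + 2 ≥ 3`

The metrics are `g = e^{2φ(z)} |dz|² + ∑ h_ij(z,t) dt_i dt_j` on `B² × T^m`, `B²` the closed unit disc,
`T^m = ℝ^m / ℤ^m`, where `h(z, ·)` is an arbitrary smooth family of Riemannian metrics on `T^m` such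
that the mean of the scalar curvature of `h(z, ·)` with the weight `(det h(z, ·))^{q/2}` is `≤ 0` for
every `z`, for one exponent `q ≠ 0`, `q ≤ (m+1)/(2m)`; for example if all `h(z, ·)` have scalar
curvature `≤ 0`.
-/

noncomputable section

open scoped ContDiff
open Set MeasureTheory

namespace Pool.Agent.Results.MP_fb4904_gt.FamiliesOfFibreMetrics

open Pool.Agent.SecondKind (Coord)
open Pool.Agent.BCS

/-- If the scalar curvature is at least `-n(n-1)` and the mean curvature of the boundary is at least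
`M > n - 1`, `n = m + 2`, then there is an admissible closed curve of length at most `L₀(M)/(n-1)` in
the boundary. -/
theorem result (m : ℕ) (hm : 1 ≤ m) (M q : ℝ) (hM : (m : ℝ) + 1 < M) (φ : ℂ → ℝ)
    (h : ℂ → Coord m) (hφ : ContDiff ℝ ∞ φ) (hh : FibM h) (hq : q ≠ 0)
    (hq2 : 2 * m * q ≤ m + 1)
    (hfib : ∀ z, ‖z‖ ≤ 1 → tI (fun t => Real.exp (q * lvol h z t) * scal (h z) t) ≤ 0)
    (hSc : ∀ y : Fin (m + 2) → ℝ, y 0 ^ 2 + y 1 ^ 2 ≤ 1 →
      -(((m : ℝ) + 2) * (m + 1)) ≤ scal (blk φ h) y)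
    (hH : ∀ y : Fin (m + 2) → ℝ, y 0 ^ 2 + y 1 ^ 2 = 1 → M ≤ meanCurv (blk φ h) y) :
    ∃ γ, IsAdm γ ∧ len (blk φ h) γ ≤ L0 m M / (m + 1) := by
  have hcoe := H77.coe H6.grn
  have hexi := H2.exi hcoe H51.tzr H37.stw
  have hkey := H88.key H6.grn H82.pwi
  have ht2a := H97.t2a hkey
  have ht2d := H13.t2d ht2a hexi H37.apx H81.tgt
  have havd := H15.avd H75.dui
  have havb := H21.avb havd H99.gsm H17.cns H60.trj
  exact H82.fin2 ht2d havb H49.blk_row H46.hmb H82.lnb m hm M q hM φ h hφ hh hq hq2 hfib hSc hH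

end Pool.Agent.Results.MP_fb4904_gt.FamiliesOfFibreMetrics
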