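import Pool.Agent.Helper82_BCS.FIN4
import Pool.Agent.Helper82_BCS.PWI
import Pool.Agent.Helper82_BCS.LN3
import Pool.Agent.Helper6_BCS.GRN
import Pool.Agent.Helper88_BCS.KEY
import Pool.Agent.Helper97_BCS.T2A
import Pool.Agent.Helper77_BCS.COE
import Pool.Agent.Helper51_BCS.TZR
import Pool.Agent.Helper37_BCS.STW
import Pool.Agent.Helper2_BCS.EXI
import Pool.Agent.Helper37_BCS.APX
import Pool.Agent.Helper81_BCS.TGT
import Pool.Agent.Helper13_BCS.T2D
import Pool.Agent.Helper75_BCS.DUI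
import Pool.Agent.Helper98_BCS.IBT
import Pool.Agent.Helper80_BCS.MIN
import Pool.Agent.Helper15_BCS.AVD
import Pool.Agent.Helper30_BCS.LIM
import Pool.Agent.Helper64_BCS.CRV
import Pool.Agent.Helper60_BCS.TRJ
import Pool.Agent.Helper49_BCS.BLG
import Pool.Agent.Helper88_BCS.CNF
import Pool.Agent.Helper62_BCS.LCF
import Pool.Agent.Helper49_BCS.IBK
import Pool.Agent.Helper46_BCS.CT3
import Pool.Agent.Helper80_BCS.SC3
import Pool.Agent.Helper46_BCS.HM3
import Pool.Agent.Helper15_BCS.HC3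
import Pool.Agent.Helper50_BCS.AV3
import Pool.Agent.Helper64_BCS.SCT
import Pool.Agent.Helper45_BCS.MCT
import Pool.Agent.Helper92_BCS.LCT
import Pool.Agent.Helper97_BCS.MDG

/-!
# Q1 near the metrics conformal to static torus invariant metrics, in every dimension `n = m + 2 ≥ 3`

`g₀ = e^{2φ(z) + 2αχ(z,t)} |dz|² + e^{2βχ(z,t)} ∑ k_ij(z,t) dt_i dt_j` on `B² × T^m`, with arbitrary
smooth functions `φ` of `z` and `χ` of all `n` variables, real constants `α`, `β`, and a smooth family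
`k(z, ·)` of Riemannian metrics on `T^m` with scalar curvature `≤ 0` whose determinant does not depend
on `t` (for `k = k(z)`, `α = β = 1` these are all metrics conformal to a static `T^m`-invariant
metric). The theorem holds for ALL metrics `g` which are close to `g₀` in the C² topology.
-/

noncomputable section

open scoped ContDiff
open Set MeasureTheory

namespace Pool.Agent.Results.MP_fb4904_gt.NearConformalToStatic

open Pool.Agent.SecondKind (Coord)
open Pool.Agent.BCS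

/-- For every `Λ > K L₀(M)/(n-1)` (so for `Λ = L₀(M)` if `K < n - 1`) there is `ε > 0` such that every
Riemannian metric `g` on `B² × T^m` whose components and their derivatives up to order two differ from
those of `g₀` by at most `ε`, with scalar curvature at least `-n(n-1)` and boundary mean curvature at
least `M > n - 1`, has an admissible closed curve of length at most `Λ` in the boundary. Here `K ≥ 1`
is any number if `α ≤ 0`, and in general the mean of `e^{αχ}` over `T^m` is at most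
`K e^{α min_t χ}` at each point of the boundary circle. -/
theorem result (m : ℕ) (hm : 1 ≤ m) (M : ℝ) (hM : (m : ℝ) + 1 < M) (φ F : ℂ → ℝ)
    (k : ℂ → Coord m) (χ : ℂ → (Fin m → ℝ) → ℝ) (α β : ℝ) (hφ : ContDiff ℝ ∞ φ)
    (hF : ContDiff ℝ ∞ F) (hk : FibM k) (hχ : SmP χ)
    (hdet : ∀ z t, (Matrix.of (k z t)).det = Real.exp (2 * F z))
    (hneg : ∀ z, ‖z‖ ≤ 1 → ∀ t, scal (k z) t ≤ 0)
    (hαβ : 0 ≤ α + m * β) (hκ : 0 ≤ 2 * α + ((m : ℝ) - 1) * β)
    (K Λ : ℝ) (hK : 0 ≤ K) (hΛ : K * (L0 m M / (m + 1)) < Λ)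
    (hKα : (α ≤ 0 ∧ 1 ≤ K) ∨ ∀ θ, tI (fun t => Real.exp (α * χ (cp θ) t)) ≤
      K * Real.exp (α * mu χ (cp θ))) :
    ∃ ε > 0, ∀ g : Coord (m + 2), MetT g →
      (∀ y : Fin (m + 2) → ℝ, y 0 ^ 2 + y 1 ^ 2 ≤ 1 → C2Close ε g (mt3 φ k χ α β) y) →
      (∀ y : Fin (m + 2) → ℝ, y 0 ^ 2 + y 1 ^ 2 ≤ 1 → -(((m : ℝ) + 2) * (m + 1)) ≤ scal g y) →
      (∀ y : Fin (m + 2) → ℝ, y 0 ^ 2 + y 1 ^ 2 = 1 → M ≤ meanCurv g y) →
      ∃ γ, IsAdm γ ∧ len g γ ≤ Λ := by
  have hcoe := H77.coe H6.grn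
  have hexi := H2.exi hcoe H51.tzr H37.stw
  have hkey := H88.key H6.grn H82.pwi
  have ht2a := H97.t2a hkey
  have ht2d := H13.t2d ht2a hexi H37.apx H81.tgt
  have havd := H15.avd H75.dui
  have hlim := H30.lim H80.min
  have hcrv := H64.crv H80.min
  have hibk := H49.ibk H98.ibt
  have hav3 := H50.av3 havd hibk H46.ct3
  have hsc3 := H80.sc3_row H49U.blg H88.cnf H62.lcf H60.trj
  have hhc3 := H15.hc3 H46.hm3
  obtain ⟨ε, hε, hb⟩ := H82.fin4 ht2d havd H80.min hav3 hlim hcrv hsc3 hhc3 H82.ln3 H64S.sct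
    H45.mct H92.lct H97.mdg (fun m k χ β hk hχ => H15.fibM_cfm hk hχ β) m hm M hM φ F k χ α β hφ
    hF hk hχ hdet hneg hαβ hκ K (Λ - K * (L0 m M / (m + 1))) hK (by linarith) hKα
  refine ⟨ε, hε, fun g hg h1 h2 h3 => ?_⟩
  obtain ⟨γ, hγ, hl⟩ := hb g hg h1 h2 h3
  exact ⟨γ, hγ, by linarith⟩

end Pool.Agent.Results.MP_fb4904_gt.NearConformalToStatic
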