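import Pool.Agent.Helper82_BCS.FIN
import Pool.Agent.Helper82_BCS.PWI
import Pool.Agent.Helper82_BCS.C2D
import Pool.Agent.Helper6_BCS.GRN
import Pool.Agent.Helper88_BCS.KEY
import Pool.Agent.Helper97_BCS.T2A
import Pool.Agent.Helper77_BCS.COE
import Pool.Agent.Helper51_BCS.TZR
import Pool.Agent.Helper37_BCS.STW
import Pool.Agent.Helper2_BCS.EXI
import Pool.Agent.Helper37_BCS.APX
import Pool.Agent.Helper81_BCS.TGT
import Pool.Agent.Helper13_BCS.T2D
import Pool.Agent.Helper75_BCS.DUI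
import Pool.Agent.Helper98_BCS.IBT
import Pool.Agent.Helper80_BCS.MIN
import Pool.Agent.Helper15_BCS.AVD
import Pool.Agent.Helper62_BCS.FIB
import Pool.Agent.Helper21_BCS.AVI
import Pool.Agent.Helper30_BCS.LIM
import Pool.Agent.Helper64_BCS.CRV
import Pool.Agent.Helper49_BCS.SCD
import Pool.Agent.Helper23_BCS.SCC
import Pool.Agent.Helper46_BCS.HMD
import Pool.Agent.Helper24_BCS.LEN

/-!
# Q1 for a family of metrics on `B² × T^m` without symmetry, in every dimension `n = m + 2 ≥ 3`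

The metrics are `g = e^{2φ(z) + 2αχ(z,t)} |dz|² + ∑ e^{2 f_i(z) + 2 β_i χ(z,t)} dt_i²` on
`B² × T^m`, `B²` the closed unit disc, `T^m = ℝ^m / ℤ^m`, with arbitrary smooth functions `φ`, `f_i`
of `z` and `χ` of all `n` variables, and real constants `α`, `β_i` with `α + ∑ β ≥ 0` and
`2α + ∑ β - β_i ≥ 0`. (For `α = β_i = 1` these are all metrics conformal to a `T^m`-invariant diagonal
metric.)
-/

noncomputable section

open scoped ContDiff
open Set MeasureTheory

namespace Pool.Agent.Results.MP_fb4904_gt.OneFunctionMetrics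

open Pool.Agent.SecondKind (Coord)
open Pool.Agent.BCS

/-- If the scalar curvature is at least `-n(n-1)` and the mean curvature of the boundary is at least
`M > n - 1`, `n = m + 2`, then the integral of `e^{φ + α min_t χ}` over the boundary circle is at most
`L₀(M)/(n-1)`; there is an admissible closed curve of length at most `L₀(M)` in the boundary, if at
each point of the boundary circle the mean of `e^{αχ}` over `T^m` is at most `(n-1) e^{α min_t χ}`; and
there is one of length at most `L₀(M)/(n-1)` if `α ≤ 0`. -/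
theorem result (m : ℕ) (hm : 1 ≤ m) (M : ℝ) (hM : (m : ℝ) + 1 < M) (φ : ℂ → ℝ)
    (f : Fin m → ℂ → ℝ) (χ : ℂ → (Fin m → ℝ) → ℝ) (α : ℝ) (β : Fin m → ℝ)
    (hφ : ContDiff ℝ ∞ φ) (hf : ∀ i, ContDiff ℝ ∞ (f i)) (hχ : SmP χ) (hαβ : 0 ≤ α + ∑ j, β j)
    (hκ : ∀ i, 0 ≤ 2 * α + ∑ j, β j - β i) (g : Coord (m + 2))
    (hg : ∀ y i j, g y i j = if i = j then Real.exp (2 * uu φ f χ α β i y) else 0)
    (hSc : ∀ y : Fin (m + 2) → ℝ, y 0 ^ 2 + y 1 ^ 2 ≤ 1 → -(((m : ℝ) + 2) * (m + 1)) ≤ scal g y)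
    (hH : ∀ y : Fin (m + 2) → ℝ, y 0 ^ 2 + y 1 ^ 2 = 1 → M ≤ meanCurv g y) :
    (∫ θ in (0 : ℝ)..(2 * Real.pi), Real.exp (φ (cp θ) + α * mu χ (cp θ))) ≤ L0 m M / (m + 1) ∧
    ((∀ θ, tI (fun t => Real.exp (α * χ (cp θ) t)) ≤ (m + 1) * Real.exp (α * mu χ (cp θ))) →
      ∃ γ, IsAdm γ ∧ len g γ ≤ L0 m M) ∧
    (α ≤ 0 → ∃ γ, IsAdm γ ∧ len g γ ≤ L0 m M / (m + 1)) := by
  have hcoe := H77.coe H6.grn
  have hexi := H2.exi hcoe H51.tzr H37.stw
  have hkey := H88.key H6.grn H82.pwi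
  have ht2a := H97.t2a hkey
  have ht2d := H13.t2d ht2a hexi H37.apx H81.tgt
  have havd := H15.avd H75.dui
  have hfib := H62.fib H98.ibt
  have havi := H21.avi havd hfib
  have hlim := H30.lim H80.min
  have hc2d := H82.c2d ht2d havd H80.min havi hlim
  have hcrv := H64.crv H80.min
  have hscc := H23.scc H49.scd
  exact H82.fin hc2d hcrv hscc H46.hmd H24.len_ H80.min m hm M hM φ f χ α β hφ hf hχ hαβ hκ g hg
    hSc hH

end Pool.Agent.Results.MP_fb4904_gt.OneFunctionMetrics
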